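import Pool.Agent.T6.H52.TB.Seg
import Pool.Agent.T6.H52.TB.Comp

set_option autoImplicit false

/-!
MP_c8123f_an, Q2.  Masses `1/4, 1/2, 1/2`, period `8`: there is a collision-free periodic solution
of the planar three-body problem in the homology class `(1, 0, -1)` which is not minimizing.
-/

namespace Pool.Agent.Results.MP_c8123f_an.NotMinimizing

/-- `x i t` is the position at time `t` of body `i` (bodies `0, 1, 2` in the plane `ℂ`), `v i t`
its velocity; Newton's equations `x_i'' = ∑_{j ≠ i} m_j (x_j - x_i) / |x_j - x_i|^3` hold -/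
def IsSolution (m : Fin 3 → ℝ) (x v : Fin 3 → ℝ → ℂ) : Prop :=
  (∀ i t, HasDerivAt (x i) (v i t) t) ∧
    ∀ i t, HasDerivAt (v i)
      (∑ j ∈ Finset.univ.erase i,
        (m j : ℂ) * (x j t - x i t) / ((‖x j t - x i t‖ : ℝ) : ℂ) ^ 3) t

/-- the winding number about `0` of the curve `γ` on `[0, T]` is `k`: a continuous choice of the
argument of `γ` on `[0, T]` increases by `2 π k` -/
def HasDegree (γ : ℝ → ℂ) (T : ℝ) (k : ℤ) : Prop :=
  ∃ φ : ℝ → ℝ, ContinuousOn φ (Set.Icc 0 T) ∧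
    (∀ t ∈ Set.Icc 0 T, γ t = ((‖γ t‖ : ℝ) : ℂ) * Complex.exp ((φ t : ℂ) * Complex.I)) ∧
    φ T - φ 0 = 2 * Real.pi * k

/-- `x` (with velocities `v`) is a `T`-periodic `C^1` loop of collision-free configurations with
centre of mass at the origin and with homology class `(k12, k23, k31) = (1, 0, -1)`
(bodies numbered `0, 1, 2`) -/
structure InClass (m : Fin 3 → ℝ) (T : ℝ) (x v : Fin 3 → ℝ → ℂ) : Prop where
  deriv : ∀ i t, HasDerivAt (x i) (v i t) t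
  cont : ∀ i, Continuous (v i)
  centre : ∀ t, ∑ i, (m i : ℂ) * x i t = 0
  periodic : ∀ i t, x i (t + T) = x i t
  collisionFree : ∀ i j, i ≠ j → ∀ t, x i t ≠ x j t
  deg12 : HasDegree (fun t => x 0 t - x 1 t) T 1
  deg23 : HasDegree (fun t => x 1 t - x 2 t) T 0
  deg31 : HasDegree (fun t => x 2 t - x 0 t) T (-1)

/-- the action `∫_0^T (∑ m_i |x_i'|^2 / 2 + U(x)) dt`, `U = ∑_{i<j} m_i m_j / |x_i - x_j|` -/
noncomputable def action (m : Fin 3 → ℝ) (T : ℝ) (x v : Fin 3 → ℝ → ℂ) : ℝ :=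
  ∫ t in (0:ℝ)..T, ((m 0 * ‖v 0 t‖ ^ 2 + m 1 * ‖v 1 t‖ ^ 2 + m 2 * ‖v 2 t‖ ^ 2) / 2 +
    (m 0 * m 1 / ‖x 0 t - x 1 t‖ + m 1 * m 2 / ‖x 1 t - x 2 t‖ + m 2 * m 0 / ‖x 2 t - x 0 t‖))

open Pool.Agent.Helper342.Hom in
theorem degree_of_angle {γ γ' : ℝ → ℂ} {T Δ : ℝ} (k : ℤ) (c : ℂ)
    (h : HasAngle γ 0 T Δ) (he : ∀ t, γ' t = c * γ t) (hk : Δ = 2 * Real.pi * k) :
    HasDegree γ' T k := by
  obtain ⟨φ, h1, h2, h3⟩ := h.mul_const c
  refine ⟨φ, h1, fun t ht => ?_, by rw [h3, hk]⟩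
  rw [he t]; exact h2 t ht

open Pool.Agent.T6.H52.TB in
theorem yc_inClass : InClass mc 8 yc yc' where
  deriv := yc_deriv
  cont := yc'_cont
  centre := by
    intro t
    rw [Fin.sum_univ_three]
    have m0 : mc 0 = 1 / 4 := rfl
    have m1 : mc 1 = 1 / 2 := rfl
    have m2 : mc 2 = 1 / 2 := rfl
    rw [m0, m1, m2]
    apply Complex.ext
    · simp [yc]; ring
    · simp [yc]
  periodic := yc_per
  collisionFree := yc_cf
  deg12 := deg01
  deg23 := deg12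
  deg31 := deg20

/-- the solution together with a lower bound for its action -/
theorem solution : ∃ x v : Fin 3 → ℝ → ℂ,
    IsSolution Pool.Agent.T6.H52.TB.mc x v ∧ InClass Pool.Agent.T6.H52.TB.mc 8 x v ∧
      177 / 25 ≤ action Pool.Agent.T6.H52.TB.mc 8 x v := by
  obtain ⟨X, W, pX, pW, dX, dW, NCX, hA, hB, hD, hX0, hW0, hI⟩ := Pool.Agent.T6.H52.TB.full2
  have dU : ∀ t, HasDerivAt (fun t => (X t).1) (W t).1 t := fun t =>
    (ContinuousLinearMap.fst ℝ ℂ ℂ).hasFDerivAt.comp_hasDerivAt t (dX t)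
  have dD : ∀ t, HasDerivAt (fun t => (X t).2) (W t).2 t := fun t =>
    (ContinuousLinearMap.snd ℝ ℂ ℂ).hasFDerivAt.comp_hasDerivAt t (dX t)
  have dV : ∀ t, HasDerivAt (fun t => (W t).1) (Pool.Agent.Helper342.Hom.Gam (X t)).1 t :=
    fun t => (ContinuousLinearMap.fst ℝ ℂ ℂ).hasFDerivAt.comp_hasDerivAt t (dW t)
  have dV2 : ∀ t, HasDerivAt (fun t => (W t).2) (Pool.Agent.Helper342.Hom.Gam (X t)).2 t :=
    fun t => (ContinuousLinearMap.snd ℝ ℂ ℂ).hasFDerivAt.comp_hasDerivAt t (dW t)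
  set x : Fin 3 → ℝ → ℂ := ![fun t => -(2 / 5) * (X t).1,
    fun t => (1 / 10) * (X t).1 + (1 / 2) * (X t).2,
    fun t => (1 / 10) * (X t).1 - (1 / 2) * (X t).2] with hx
  set v : Fin 3 → ℝ → ℂ := ![fun t => -(2 / 5) * (W t).1,
    fun t => (1 / 10) * (W t).1 + (1 / 2) * (W t).2,
    fun t => (1 / 10) * (W t).1 - (1 / 2) * (W t).2] with hv
  have x0 : ∀ t, x 0 t = -(2 / 5) * (X t).1 := fun t => rfl
  have x1 : ∀ t, x 1 t = (1 / 10) * (X t).1 + (1 / 2) * (X t).2 := fun t => rfl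
  have x2 : ∀ t, x 2 t = (1 / 10) * (X t).1 - (1 / 2) * (X t).2 := fun t => rfl
  have v0 : ∀ t, v 0 t = -(2 / 5) * (W t).1 := fun t => rfl
  have v1 : ∀ t, v 1 t = (1 / 10) * (W t).1 + (1 / 2) * (W t).2 := fun t => rfl
  have v2 : ∀ t, v 2 t = (1 / 10) * (W t).1 - (1 / 2) * (W t).2 := fun t => rfl
  have d10 : ∀ t, x 1 t - x 0 t = (1 / 2) * ((X t).1 + (X t).2) := fun t => by
    rw [x0, x1]; ring
  have d20 : ∀ t, x 2 t - x 0 t = (1 / 2) * ((X t).1 - (X t).2) := fun t => by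
    rw [x0, x2]; ring
  have d12 : ∀ t, x 1 t - x 2 t = (X t).2 := fun t => by
    rw [x1, x2]; ring
  have n10 : ∀ t, x 1 t ≠ x 0 t := fun t h => by
    have := d10 t
    rw [h, sub_self] at this
    have h2 := (NCX t).1
    apply h2
    linear_combination (-2 : ℂ) * this
  have n20 : ∀ t, x 2 t ≠ x 0 t := fun t h => by
    have := d20 t
    rw [h, sub_self] at this
    have h2 := (NCX t).2.1
    apply h2
    linear_combination (-2 : ℂ) * this
  have n12 : ∀ t, x 1 t ≠ x 2 t := fun t h => by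
    have := d12 t
    rw [h, sub_self] at this
    exact (NCX t).2.2 this.symm
  have hcf : ∀ i j, i ≠ j → ∀ t, x i t ≠ x j t := by
    intro i j hij t
    fin_cases i <;> fin_cases j
    · exact absurd rfl hij
    · exact (n10 t).symm
    · exact (n20 t).symm
    · exact n10 t
    · exact absurd rfl hij
    · exact n12 t
    · exact n20 t
    · exact (n12 t).symm
    · exact absurd rfl hij
  have half : ∀ z : ℂ, (1 / 2 * z) / ((‖1 / 2 * z‖ : ℝ) : ℂ) ^ 3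
      = 4 * Pool.Agent.Helper342.Hom.Fc z := by
    intro z
    unfold Pool.Agent.Helper342.Hom.Fc
    rw [norm_mul]
    by_cases hz : z = 0
    · simp [hz]
    · have : ((‖z‖ : ℝ) : ℂ) ≠ 0 := by simpa using hz
      have h2 : ‖(1 / 2 : ℂ)‖ = 1 / 2 := by simp
      rw [h2]
      push_cast
      field_simp
      norm_num
  have hmc : Pool.Agent.T6.H52.TB.mc = ![1 / 4, 1 / 2, 1 / 2] := rfl
  have hdx : ∀ i t, HasDerivAt (x i) (v i t) t := by
    intro i t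
    fin_cases i
    · exact (dU t).const_mul _
    · exact ((dU t).const_mul _).add ((dD t).const_mul _)
    · exact ((dU t).const_mul _).sub ((dD t).const_mul _)
  have hdv : ∀ i t, HasDerivAt (v i)
      (∑ j ∈ Finset.univ.erase i,
        (Pool.Agent.T6.H52.TB.mc j : ℂ) * (x j t - x i t) / ((‖x j t - x i t‖ : ℝ) : ℂ) ^ 3) t := by
    intro i t
    have F10 : ∀ t, (x 1 t - x 0 t) / ((‖x 1 t - x 0 t‖ : ℝ) : ℂ) ^ 3 =
        4 * Pool.Agent.Helper342.Hom.Fc ((X t).1 + (X t).2) := fun t => by rw [d10, half]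
    have F20 : ∀ t, (x 2 t - x 0 t) / ((‖x 2 t - x 0 t‖ : ℝ) : ℂ) ^ 3 =
        4 * Pool.Agent.Helper342.Hom.Fc ((X t).1 - (X t).2) := fun t => by rw [d20, half]
    have F12 : ∀ t, (x 1 t - x 2 t) / ((‖x 1 t - x 2 t‖ : ℝ) : ℂ) ^ 3 =
        Pool.Agent.Helper342.Hom.Fc (X t).2 := fun t => by
      rw [d12]; rfl
    have sw : ∀ i j : Fin 3, (x i t - x j t) / ((‖x i t - x j t‖ : ℝ) : ℂ) ^ 3 =
        -((x j t - x i t) / ((‖x j t - x i t‖ : ℝ) : ℂ) ^ 3) := by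
      intro i j
      rw [norm_sub_rev, ← neg_div, neg_sub]
    rw [hmc]
    fin_cases i
    · refine ((dV t).const_mul (-(2 / 5) : ℂ)).congr_deriv ?_
      have : (Finset.univ.erase (0 : Fin 3)) = {1, 2} := by decide
      show _ = ∑ j ∈ Finset.univ.erase (0 : Fin 3), _
      rw [this, Finset.sum_pair (by decide), mul_div_assoc, mul_div_assoc]
      show _ = (((![1 / 4, 1 / 2, 1 / 2] : Fin 3 → ℝ) 1 : ℝ) : ℂ) *
          ((x 1 t - x 0 t) / ((‖x 1 t - x 0 t‖ : ℝ) : ℂ) ^ 3) +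
        (((![1 / 4, 1 / 2, 1 / 2] : Fin 3 → ℝ) 2 : ℝ) : ℂ) *
          ((x 2 t - x 0 t) / ((‖x 2 t - x 0 t‖ : ℝ) : ℂ) ^ 3)
      rw [F10, F20]
      simp [Pool.Agent.Helper342.Hom.Gam]
      ring
    · refine (((dV t).const_mul (1 / 10 : ℂ)).add ((dV2 t).const_mul (1 / 2 : ℂ))).congr_deriv ?_
      have : (Finset.univ.erase (1 : Fin 3)) = {0, 2} := by decide
      show _ = ∑ j ∈ Finset.univ.erase (1 : Fin 3), _
      rw [this, Finset.sum_pair (by decide), mul_div_assoc, mul_div_assoc]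
      show _ = (((![1 / 4, 1 / 2, 1 / 2] : Fin 3 → ℝ) 0 : ℝ) : ℂ) *
          ((x 0 t - x 1 t) / ((‖x 0 t - x 1 t‖ : ℝ) : ℂ) ^ 3) +
        (((![1 / 4, 1 / 2, 1 / 2] : Fin 3 → ℝ) 2 : ℝ) : ℂ) *
          ((x 2 t - x 1 t) / ((‖x 2 t - x 1 t‖ : ℝ) : ℂ) ^ 3)
      rw [sw 0 1, sw 2 1, F10, F12]
      simp [Pool.Agent.Helper342.Hom.Gam]
      ring
    · refine (((dV t).const_mul (1 / 10 : ℂ)).sub ((dV2 t).const_mul (1 / 2 : ℂ))).congr_deriv ?_
      have : (Finset.univ.erase (2 : Fin 3)) = {0, 1} := by decide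
      show _ = ∑ j ∈ Finset.univ.erase (2 : Fin 3), _
      rw [this, Finset.sum_pair (by decide), mul_div_assoc, mul_div_assoc]
      show _ = (((![1 / 4, 1 / 2, 1 / 2] : Fin 3 → ℝ) 0 : ℝ) : ℂ) *
          ((x 0 t - x 2 t) / ((‖x 0 t - x 2 t‖ : ℝ) : ℂ) ^ 3) +
        (((![1 / 4, 1 / 2, 1 / 2] : Fin 3 → ℝ) 1 : ℝ) : ℂ) *
          ((x 1 t - x 2 t) / ((‖x 1 t - x 2 t‖ : ℝ) : ℂ) ^ 3)
      rw [sw 0 2, F20, F12]
      simp [Pool.Agent.Helper342.Hom.Gam]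
      ring
  have hcl : InClass Pool.Agent.T6.H52.TB.mc 8 x v := by
    refine ⟨hdx, ?_, ?_, ?_, hcf, ?_, ?_, ?_⟩
    · intro i
      exact continuous_iff_continuousAt.mpr fun t => (hdv i t).continuousAt
    · intro t
      rw [hmc, Fin.sum_univ_three, x0, x1, x2]
      simp
      ring
    · intro i t
      fin_cases i
      · show x 0 (t + 8) = x 0 t
        rw [x0, x0, pX]
      · show x 1 (t + 8) = x 1 t
        rw [x1, x1, pX]
      · show x 2 (t + 8) = x 2 t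
        rw [x2, x2, pX]
    · refine degree_of_angle 1 (-(1 / 2)) hA (fun t => ?_) (by push_cast; ring)
      show x 0 t - x 1 t = _
      linear_combination -(d10 t)
    · refine degree_of_angle 0 1 hD (fun t => ?_) (by push_cast; ring)
      show x 1 t - x 2 t = _
      rw [d12, one_mul]
    · refine degree_of_angle (-1) (1 / 2) hB (fun t => ?_) (by push_cast; ring)
      show x 2 t - x 0 t = _
      rw [d20]
  refine ⟨x, v, ⟨hdx, hdv⟩, hcl, ?_⟩
  -- the action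
  have hact : action Pool.Agent.T6.H52.TB.mc 8 x v = Pool.Agent.T6.H52.TB.action
      Pool.Agent.T6.H52.TB.mc 8 x v := rfl
  have pv : ∀ i, v i 8 = v i 0 := by
    intro i
    have h2 : W 8 = W 0 := by have := pW 0; rwa [zero_add] at this
    fin_cases i
    · show v 0 8 = v 0 0
      rw [v0, v0, h2]
    · show v 1 8 = v 1 0
      rw [v1, v1, h2]
    · show v 2 8 = v 2 0
      rw [v2, v2, h2]
  have px : ∀ i, x i 8 = x i 0 := by
    intro i
    have := hcl.periodic i 0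
    rwa [zero_add] at this
  rw [hact, Pool.Agent.T6.H52.TB.action_eq _ 8 x v hdx hdv hcf px pv]
  -- initial data
  have s0 : v 0 0 = -(2 / 5) * (W 0).1 := v0 0
  have s1 : v 1 0 = (1 / 10) * (W 0).1 := by rw [v1, hW0]; ring
  have s2 : v 2 0 = (1 / 10) * (W 0).1 := by rw [v2, hW0]; ring
  have r01 : x 0 0 - x 1 0 = -(1 / 2) * (X 0).2 := by rw [x0, x1, hX0]; ring
  have r12 : x 1 0 - x 2 0 = (X 0).2 := d12 0
  have r20 : x 2 0 - x 0 0 = -(1 / 2) * (X 0).2 := by rw [x0, x2, hX0]; ring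
  obtain ⟨⟨a1, a2⟩, ⟨b1, b2⟩, ⟨c1, c2⟩, e1, e2⟩ := hI
  have hn : ‖(X 0).2‖ ^ 2 ≤ (15178 / 10000) ^ 2 := by
    rw [Pool.Agent.T6.H52.TB.nsq]
    norm_num at a1 a2 b1 b2
    nlinarith
  have hnn : ‖(X 0).2‖ ≤ 15178 / 10000 := le_of_sq_le_sq hn (by norm_num)
  have hnpos : 0 < ‖(X 0).2‖ := norm_pos_iff.mpr (NCX 0).2.2
  have hw : ‖(W 0).1‖ ^ 2 ≤ 7957 / 1000 := by
    rw [Pool.Agent.T6.H52.TB.nsq]
    norm_num at c1 c2 e1 e2
    nlinarith
  have k0 : ‖v 0 0‖ ^ 2 = 4 / 25 * ‖(W 0).1‖ ^ 2 := by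
    rw [s0, norm_mul, mul_pow]; norm_num
  have k1 : ‖v 1 0‖ ^ 2 = 1 / 100 * ‖(W 0).1‖ ^ 2 := by
    rw [s1, norm_mul, mul_pow]; norm_num
  have k2 : ‖v 2 0‖ ^ 2 = 1 / 100 * ‖(W 0).1‖ ^ 2 := by
    rw [s2, norm_mul, mul_pow]; norm_num
  have u01 : ‖x 0 0 - x 1 0‖ = 1 / 2 * ‖(X 0).2‖ := by rw [r01, norm_mul]; norm_num
  have u20 : ‖x 2 0 - x 0 0‖ = 1 / 2 * ‖(X 0).2‖ := by rw [r20, norm_mul]; norm_num
  have u12 : ‖x 1 0 - x 2 0‖ = ‖(X 0).2‖ := by rw [r12]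
  have m0 : Pool.Agent.T6.H52.TB.mc 0 = 1 / 4 := rfl
  have m1 : Pool.Agent.T6.H52.TB.mc 1 = 1 / 2 := rfl
  have m2 : Pool.Agent.T6.H52.TB.mc 2 = 1 / 2 := rfl
  unfold Pool.Agent.T6.H52.TB.kin Pool.Agent.T6.H52.TB.pot
  rw [k0, k1, k2, u01, u20, u12, m0, m1, m2]
  have hinv : 10000 / 15178 ≤ 1 / ‖(X 0).2‖ := by
    rw [div_le_div_iff₀ (by norm_num) hnpos]; linarith
  have eU : 1 / 4 * (1 / 2) / (1 / 2 * ‖(X 0).2‖) + 1 / 2 * (1 / 2) / ‖(X 0).2‖ +
      1 / 2 * (1 / 4) / (1 / 2 * ‖(X 0).2‖) = 3 / 4 * (1 / ‖(X 0).2‖) := by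
    field_simp; ring
  rw [eU]
  linarith

/-- **Main result.**  There are positive masses `m`, a period `T` and a collision-free `T`-periodic
solution `x` of the planar three-body problem in the class `(1, 0, -1)` which is not minimizing:
an explicit `C^1` collision-free loop of the same class has a smaller action (`A(y) < 6.04`,
`A(x) ≥ 7.08`); in particular `x` does not minimize the action over the closure of the class. -/
theorem result : ∃ (m : Fin 3 → ℝ) (T : ℝ) (x v : Fin 3 → ℝ → ℂ),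
    (∀ i, 0 < m i) ∧ 0 < T ∧ IsSolution m x v ∧ InClass m T x v ∧
    ∃ y w : Fin 3 → ℝ → ℂ, InClass m T y w ∧ action m T y w < 6.04 ∧ 7.08 ≤ action m T x v := by
  obtain ⟨x, v, h1, h2, h3⟩ := solution
  refine ⟨Pool.Agent.T6.H52.TB.mc, 8, x, v, ?_, by norm_num, h1, h2,
    Pool.Agent.T6.H52.TB.yc, Pool.Agent.T6.H52.TB.yc', yc_inClass, ?_, ?_⟩
  · intro i
    fin_cases i <;> norm_num [Pool.Agent.T6.H52.TB.mc]
  · have h : action Pool.Agent.T6.H52.TB.mc 8 Pool.Agent.T6.H52.TB.yc Pool.Agent.T6.H52.TB.yc' =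
        Pool.Agent.T6.H52.TB.action Pool.Agent.T6.H52.TB.mc 8 Pool.Agent.T6.H52.TB.yc
          Pool.Agent.T6.H52.TB.yc' := rfl
    rw [h]
    refine lt_of_le_of_lt Pool.Agent.T6.H52.TB.action_yc ?_
    have hp := Real.pi_lt_d4
    have hp0 := Real.pi_pos
    have : Pool.Agent.T6.H52.TB.om ^ 2 ≤ 6169 / 10000 := by
      unfold Pool.Agent.T6.H52.TB.om
      nlinarith
    norm_num
    linarith
  · norm_num at h3 ⊢
    linarith

end Pool.Agent.Results.MP_c8123f_an.NotMinimizing
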